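import Mathlib
import Pool.Agent.Helper142.Kib.Defs
import Pool.Agent.Helper142.Kib.Statement
import Pool.Agent.Helper142.Kib.Final
import Pool.Agent.Helper7.OT.Two

/-!
# MP_7548d4_gt: the Busemann type inequality for `k`-intersection bodies when `k` divides `n`

For all integers `k ≥ 2` and all multiples `n > 2 k` of `k`, and for all origin-symmetric star
bodies `K`, `L` of `ℝⁿ` such that `L` is the `k`-intersection body of `K`,
`|L|^k ≤ C_{n,k} |K|^{n-k}` with the sharp constant
`C_{n,k} = κ_{n-k}^n κ_k^{-n} κ_n^{2k-n}` of the question.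
-/

namespace Pool.Agent.Results.MP_7548d4_gt.DivisibleCase

open MeasureTheory Pool.Agent.Helper142.Kib

/-- **Theorem.** The inequality of Q1 holds for all `2 ≤ k < n / 2` such that `k` divides `n`. -/
theorem result (n k : ℕ) (hk : 2 ≤ k) (hkn : 2 * k < n) (hdvd : k ∣ n)
    (K L : Set (EuclideanSpace ℝ (Fin n))) (hK : IsSymStarBody K) (hL : IsSymStarBody L)
    (h : St.HasIntersectionBody k K L) :
    St.vol L ^ k ≤ St.Cnk n k * St.vol K ^ (n - k) := by
  rw [St.has_iff] at h
  unfold St.vol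
  obtain ⟨N, hN⟩ := hdvd
  have hN3 : 3 ≤ N := by
    by_contra hcon
    have h2 : N ≤ 2 := by omega
    have h3 : k * N ≤ k * 2 := Nat.mul_le_mul_left k h2
    omega
  have h1 := Final.RES (fun w h1 h2 f h3 h4 h5 =>
    Pool.Agent.Helper7.Simplex.OT.BL_all w h1 h2 f h3 h4 h5) N k n hN3 (by omega)
    (by rw [hN, mul_comm]) K L hK hL h
  have e : kap (n - k) ^ n / kap k ^ n * kap n ^ k / kap n ^ (n - k) = St.Cnk n k := by
    have k1 := (Final.kap_pos k).ne'
    have k2 := (Final.kap_pos n).ne'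
    unfold St.Cnk
    have e1 : 2 * (k : ℤ) - (n : ℤ) = (k : ℤ) - ((n - k : ℕ) : ℤ) := by omega
    rw [e1, zpow_sub₀ k2, zpow_neg, zpow_natCast, zpow_natCast, zpow_natCast, zpow_natCast]
    field_simp
  rw [e] at h1
  exact h1

end Pool.Agent.Results.MP_7548d4_gt.DivisibleCase
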